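import Pool.Agent.K9h36.CS.Top

/-!
# Cubic fourfolds whose algebraic classes are generated by classes of cubic scrolls

Let `X` be a smooth cubic fourfold and `A(X)` the group of the Hodge classes in `H^4(X, ℤ)`. A cubic
scroll in `X` has a class `T` with `T.h = 3` and `T.T = 7` (discriminant `12`). Suppose that `h` and the
Hodge classes `T` with these intersection numbers generate a subgroup of `A(X)` of index prime to `6`,
and that the rank of `A(X)` is at least six. We prove:

1. `X` has an associated K3 surface if and only if `X` is in the divisor `C_42`;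
2. so if `X` has an associated K3 surface then `X` is rational, as predicted by the conjecture of
   Hassett.

The rank of `A(X)` is arbitrary (six to `21`). In rank four and five there are exceptions, for
instance if the orthogonal complement of `h` in `A(X)` has the Gram matrix
`(4, 1, 1; 1, 4, 0; 1, 0, 4)`: the smallest admissible discriminants which occur are `78` and `114`
there, and `X` is not known to be rational.

Known facts which are used (the hypotheses of the theorem): the properties of `H^4(X, ℤ)` collected in
`H4.IsCohomology`, and the rationality of the cubic fourfolds in `C_42` (Russo, Staglianò). The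
conclusion `HasK3` is Hassett's criterion for the existence of a polarised K3 surface `(S, H)` with a
primitive isometric embedding of `H^2(S, ℤ)_pr` in `H^4(X, ℤ)_pr`.

Idea of the proof. The classes `s = T - h` are the primitive Hodge classes with `s.s = 4`. If there is an
associated K3 surface then the local condition at `2` gives two of them with an odd product, which
is `1` or `-1`, say `s.t = 1`, and the condition at `3` gives two of them, `u` and `v`, such that `u.v` is
not congruent to `(s.u) (s.v)` modulo `3`. One has to find a primitive Hodge class with the square `14`,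
which has the discriminant `42`. If there is none then the intersection numbers of any `w` with `s`
and `t` are restricted to a short list, by the small combinations of `s`, `t`, `w`; either they are `0`
and `± 1` for some `w`, and then `s`, `t`, `w` together with any two more independent classes represent
`14`, or the combinations of `s`, `t`, `u`, `v` do.
-/

set_option autoImplicit false

namespace Pool.Agent.Results.MP_ffd2c1_ag.CubicScrolls

open Pool.Agent.Y95.Q

/-- A Hodge class with the intersection numbers of a cubic scroll. -/
def IsScroll {X : CubicFourfold} (H : H4 X) (T : Fin 23 → ℤ) : Prop :=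
  H.IsHodge T ∧ H.ip T H.h = 3 ∧ H.ip T T = 7

/-- The square `h` of the hyperplane class and the classes of cubic scrolls generate a subgroup of
the group of the Hodge classes the index of which is prime to six. -/
def GeneratedByScrolls {X : CubicFourfold} (H : H4 X) : Prop :=
  ∀ v, H.IsHodge v → ∃ m : ℤ, IsCoprime m 6 ∧
    m • v ∈ AddSubgroup.closure (insert H.h {T | IsScroll H T})

/-- `X` is in the Hassett divisor `C_d`: there is a Hodge class `v` such that `h` and `v` span a
saturated group of discriminant `d`. -/
def InDivisor {X : CubicFourfold} (H : H4 X) (d : ℤ) : Prop :=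
  ∃ v, H.IsHodge v ∧ H.Saturated v ∧ H.disc v = d

/-- **Cubic fourfolds of rank at least six whose algebraic classes are generated by cubic scrolls:
they have an associated K3 surface if and only if they are in `C_42`, and then they are rational.** -/
theorem result {X : CubicFourfold} {H : H4 X} (hH : H.IsCohomology) (hr : 6 ≤ H.rank)
    (hg : GeneratedByScrolls H) :
    (H.HasK3 ↔ InDivisor H 42) ∧
    ((InDivisor H 42 → X.IsRational) → H.HasK3 → X.IsRational) := by
  have gen : Pool.Agent.K9h36.CS.Gen H := by
    intro v hv
    obtain ⟨m, hm, hmv⟩ := hg v hv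
    refine ⟨m, ?_, ?_, ?_⟩
    · intro h
      have h1 : IsUnit (2 : ℤ) := hm.isUnit_of_dvd' h (by norm_num)
      rw [Int.isUnit_iff] at h1
      omega
    · intro h
      have h1 : IsUnit (3 : ℤ) := hm.isUnit_of_dvd' h (by norm_num)
      rw [Int.isUnit_iff] at h1
      omega
    · refine (AddSubgroup.closure_le _).2 ?_ hmv
      rintro T (rfl | ⟨h1, h2, h3⟩)
      · exact AddSubgroup.subset_closure (Set.mem_insert _ _)
      · have e : T = (T + (-1 : ℤ) • H.h) + H.h := by
          rw [neg_smul, one_smul]
          abel
        have hn : Pool.Agent.K9h36.CS.N4 H (T + (-1 : ℤ) • H.h) := by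
          have h4 : H.ip H.h T = 3 := by rw [hH.comm]; exact h2
          refine ⟨H.isHodge_add h1 (H.isHodge_smul _ hH.h_hodge), ?_, ?_⟩
          · rw [H4.ip_add_left, H4.ip_smul_left, h2, hH.h_self]
            norm_num
          · simp only [H4.ip_add_left, H4.ip_add_right, H4.ip_smul_left, H4.ip_smul_right, h2, h3,
              h4, hH.h_self]
            norm_num
        show T ∈ AddSubgroup.closure (insert H.h {s | Pool.Agent.K9h36.CS.N4 H s})
        rw [e]
        exact AddSubgroup.add_mem _ (AddSubgroup.subset_closure (Set.mem_insert_of_mem _ hn))
          (AddSubgroup.subset_closure (Set.mem_insert _ _))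
  have h1 : H.HasK3 → InDivisor H 42 := by
    intro hK
    have hl := ((Pool.Agent.N801.CF.hasK3_iff hH).1 hK).2
    rw [H.rank_eq] at hr
    obtain ⟨w, hw, hw2⟩ := hl 2 Nat.prime_two
    obtain ⟨w', hw', hw3⟩ := hl 3 Nat.prime_three
    obtain ⟨x, hx, hxh, hxx⟩ := Pool.Agent.K9h36.CS.exists_fourteen hH gen hr
      ⟨w, hw, hw2.1 rfl⟩ ⟨w', hw', hw3.2.1 rfl⟩
    have hd : H.disc x = 42 := by
      rw [Pool.Agent.N801.CF.disc_prim hH hxh, hxx]
      norm_num
    obtain ⟨y, m, hm, hy, hsat, he⟩ := Pool.Agent.X328.CF.exists_sat hH hx (by rw [hd]; norm_num)
    refine ⟨y, hy, hsat, ?_⟩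
    rw [hd] at he
    have hm1 : m = 1 := by
      have h2 : m ^ 2 ∣ 42 := ⟨_, he⟩
      have h3 : m ≤ 6 := by
        by_contra h4
        have h5 := Int.le_of_dvd (by norm_num) h2
        nlinarith
      interval_cases m <;> revert h2 <;> decide
    rw [hm1] at he
    linarith
  have h2 : InDivisor H 42 → H.HasK3 := by
    rintro ⟨v, hv, hs, hd⟩
    refine ⟨v, hv, hs, ?_⟩
    rw [hd]
    refine ⟨by norm_num, by norm_num, by norm_num, fun p hp hp2 hpd => ?_⟩
    have h3 : p ∣ 42 := by exact_mod_cast hpd
    have h4 : p ∈ Nat.primeFactors 42 := Nat.mem_primeFactors.2 ⟨hp, h3, by norm_num⟩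
    have h5 : Nat.primeFactors 42 = {2, 3, 7} := by
      rw [show 42 = 2 * 3 * 7 by norm_num]
      rw [Nat.primeFactors_mul (by norm_num) (by norm_num), Nat.primeFactors_mul (by norm_num)
        (by norm_num), Nat.Prime.primeFactors Nat.prime_two, Nat.Prime.primeFactors Nat.prime_three,
        Nat.Prime.primeFactors (by norm_num)]
      rfl
    rw [h5] at h4
    simp only [Finset.mem_insert, Finset.mem_singleton] at h4
    rcases h4 with rfl | rfl | rfl
    · exact absurd rfl hp2
    · norm_num
    · norm_num
  exact ⟨⟨h1, h2⟩, fun hrat hK => hrat (h1 hK)⟩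

end Pool.Agent.Results.MP_ffd2c1_ag.CubicScrolls
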