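import Pool.Agent.K9h76.CF.Span

/-!
# Cubic fourfolds with many planes: an associated K3 surface implies rationality

Let `X` be a smooth cubic fourfold, `A` the lattice of the Hodge classes in `H^4(X, ℤ)`, `ρ` its rank and
`N` the number of the planes in `X`. Let `κ(0) = 0`, `κ(d) = d + 1` if `4` divides `d > 0`, and `κ(d) = d`
otherwise. Let `ρ ≤ d + 2` or `ρ ≥ 23 - d`; for `d = 10` this is always the case.

**Theorem.** Suppose that the planes in `X` are not exceptional for `a = κ(d)`, `b = κ(d - 1)`, `g = d - 3`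
(see below). Then `X` has an associated K3 surface if and only if `T.(h - P)` is odd for some plane `P` and
some Hodge class `T`. In particular `X` is rational, if it has an associated K3 surface: one half of
Hassett's conjecture holds for `X`.

The planes are exceptional, if there are finitely many; any two of them meet in a point or in a line; if two
of them meet in a line then exactly one plane meets both in lines; at most `a` planes meet pairwise in points;
and

* either any two planes meet in a point and `N ≤ a`,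
* or `N = 1 + 2 k` with `1 ≤ k ≤ b`, one plane meets all the others in lines, and each of the others meets
  exactly two planes in lines,
* or the planes are the points of a generalised quadrangle of order `(2, t)`: `N = 3 (2 t + 1)`, each plane
  meets exactly `2 (t + 1)` planes in lines, and if `P` and `Q` meet in a point then exactly `t + 1` planes
  meet `P` and `Q` in lines; here `t = 1`, `g ≥ 1`, or `t = 2`, `g ≥ 2`, or `t = 4`, `g ≥ 3`.

So an associated K3 surface implies the rationality of `X` in each of the following cases: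

* `N ≥ 12` is not one of `13`, `15`, `17`, `19`, `27`; or `X` contains eleven planes which meet pairwise in
  points; or some plane in `X` meets at least nineteen planes in lines (`d = 10`, all `X`);
* `ρ ≤ 3`, `N ≥ 2`;
* `ρ ≤ 4`, `N ≥ 4`;
* `ρ ≤ 5`, `N = 4` or `N ≥ 6`;
* `ρ ≤ 6`, `N = 6`, `N = 8` or `N ≥ 10`;
* `ρ ≤ 7`, `N ≥ 6` is not one of `7`, `9`, `11`, `15`;
* `ρ ≤ 8`, `N ≥ 8` is not one of `9`, `11`, `15`, `27`.

This complements `MP_ffd2c1_ag.PlanesAndDiscriminant`, where the stronger conclusion, that `X` is rational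
and has an associated K3 surface, is proved for non exceptional planes with `d = ρ - 1` instead of
`d = ρ - 2`. The starting library (`MP_ffd2c1_ag.ManyPlanes`) contains that conclusion for `d = 11`: there
the numbers are `N ≥ 12` not one of `13`, `15`, `17`, `19`, `21`, `27`, twelve planes, twenty-one planes. The
stronger conclusion does not hold for `d = ρ - 2`: a general cubic fourfold with an Eckardt point has `ρ = 7`,
`N = 27` and no associated K3 surface.

The known facts which are used are collected in `H4.IsCohomology`: the lattice `H^4(X, ℤ)` is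
unimodular of rank `23` and `h` is characteristic; the Hodge classes are positive definite; Voisin's
theorem that the classes of the planes are the Hodge classes `v` with `v.h = 1`, `v.v = 3`; the
discriminants `2` and `6` do not occur; and Hassett's theorem that `X` is rational if `T.(h - P)` is odd for
some plane `P` and Hodge class `T`.

Idea of the proof. Suppose that `T.(h - P)` is even for all planes `P` and Hodge classes `T`. The classes
`h - P` span a subspace `W` of `A / 2 A`. The planes are singular vectors of the quadratic form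
`w.w / 4 + w.h / 2` on `W`, and if they are not exceptional for `d` then the dimension of `W` is at least
`d + 1` (see `MP_ffd2c1_ag.PlanesAndDiscriminant`). If this is at least `ρ - 1` then `h` and the planes
generate a subgroup of odd index of `A`; as the discriminants `3 v.v - (v.h) ^ 2` of all its members are
divisible by four, so are those of all Hodge classes, and there is no associated K3 surface.
-/

set_option autoImplicit false

namespace Pool.Agent.Results.MP_ffd2c1_ag.PlanesAndAssociatedK3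

open Pool.Agent.Y95.Q

/-- The number `κ(d)`: it is `d + 1` if `d` is positive and divisible by `4`, and `d` otherwise. -/
def kappa (d : ℕ) : ℕ := if d % 4 = 0 ∧ d ≠ 0 then d + 1 else d

/-- The number of the planes which meet the plane `P` in a line. -/
noncomputable def deg {X : CubicFourfold} (H : H4 X) (P : X.Plane) : ℕ :=
  Nat.card {R : X.Plane // H.ip (H.cl P) (H.cl R) = -1}

/-- The number of the planes which meet the planes `P` and `Q` in lines. -/
noncomputable def codeg {X : CubicFourfold} (H : H4 X) (P Q : X.Plane) : ℕ :=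
  Nat.card {R : X.Plane // H.ip (H.cl P) (H.cl R) = -1 ∧ H.ip (H.cl Q) (H.cl R) = -1}

/-- The planes in `X` are exceptional, with the bounds `a`, `b`, `g`; see above. (Two planes meet in a line
if the product of their classes is `-1`, and in a point if it is `1`.) -/
def Exceptional {X : CubicFourfold} (H : H4 X) (a b g : ℕ) : Prop :=
  Finite X.Plane ∧
  (∀ P Q : X.Plane, P ≠ Q →
    H.ip (H.cl P) (H.cl Q) = 1 ∨ (H.ip (H.cl P) (H.cl Q) = -1 ∧ codeg H P Q = 1)) ∧
  (∀ (n : ℕ) (P : Fin n → X.Plane), (∀ i j, i ≠ j → H.ip (H.cl (P i)) (H.cl (P j)) = 1) → n ≤ a) ∧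
  ((Nat.card X.Plane ≤ a ∧ ∀ P Q : X.Plane, P ≠ Q → H.ip (H.cl P) (H.cl Q) = 1) ∨
    (∃ (k : ℕ) (A : X.Plane), 1 ≤ k ∧ k ≤ b ∧ Nat.card X.Plane = 1 + 2 * k ∧
      ∀ Q : X.Plane, Q ≠ A → H.ip (H.cl A) (H.cl Q) = -1 ∧ deg H Q = 2) ∨
    (∃ t : ℕ, ((t = 1 ∧ 1 ≤ g) ∨ (t = 2 ∧ 2 ≤ g) ∨ (t = 4 ∧ 3 ≤ g)) ∧
      Nat.card X.Plane = 3 * (2 * t + 1) ∧ (∀ P : X.Plane, deg H P = 2 * (t + 1)) ∧
      ∀ P Q : X.Plane, H.ip (H.cl P) (H.cl Q) = 1 → codeg H P Q = t + 1))

/-- The possible numbers of planes. -/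
theorem Exceptional.card {X : CubicFourfold} {H : H4 X} {a b g : ℕ} (h : Exceptional H a b g) :
    Nat.card X.Plane ≤ a ∨ (∃ k, 1 ≤ k ∧ k ≤ b ∧ Nat.card X.Plane = 1 + 2 * k) ∨
      (Nat.card X.Plane = 9 ∧ 1 ≤ g) ∨ (Nat.card X.Plane = 15 ∧ 2 ≤ g) ∨ (Nat.card X.Plane = 27 ∧ 3 ≤ g) := by
  obtain ⟨-, -, -, h | ⟨k, A, k1, k2, k3, -⟩ | ⟨t, t1, t2, -⟩⟩ := h
  · exact Or.inl h.1
  · exact Or.inr (Or.inl ⟨k, k1, k2, k3⟩)
  · rcases t1 with ⟨rfl, t1⟩ | ⟨rfl, t1⟩ | ⟨rfl, t1⟩
    · exact Or.inr (Or.inr (Or.inl ⟨t2, t1⟩))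
    · exact Or.inr (Or.inr (Or.inr (Or.inl ⟨t2, t1⟩)))
    · exact Or.inr (Or.inr (Or.inr (Or.inr ⟨t2, t1⟩)))

/-- The possible degrees. -/
theorem Exceptional.deg_le {X : CubicFourfold} {H : H4 X} (hH : H.IsCohomology) {a b g : ℕ}
    (h : Exceptional H a b g) (P : X.Plane) : deg H P ≤ max (2 * b) 10 := by
  obtain ⟨hfin, -, -, h | ⟨k, A, k1, k2, k3, h⟩ | ⟨t, t1, t2, h, -⟩⟩ := h
  · have : deg H P = 0 := by
      have h1 : IsEmpty {R : X.Plane // H.ip (H.cl P) (H.cl R) = -1} := by
        refine ⟨fun R => ?_⟩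
        have h2 := R.2
        by_cases hR : P = R.1
        · rw [← hR, ((hH.cl_range _).1 ⟨P, rfl⟩ : H.IsPl (H.cl P)).2.2] at h2
          norm_num at h2
        · rw [h.2 _ _ hR] at h2
          norm_num at h2
      unfold deg
      exact Nat.card_of_isEmpty
    omega
  · have h1 : deg H P ≤ 2 * k := by
      have h2 : deg H P < Nat.card X.Plane := by
        unfold deg
        refine Finite.card_subtype_lt (x := P) ?_
        rw [((hH.cl_range _).1 ⟨P, rfl⟩ : H.IsPl (H.cl P)).2.2]
        norm_num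
      omega
    omega
  · have h1 := h P
    omega

/-- **Planes, rank and associated K3 surfaces.** -/
theorem result {X : CubicFourfold} {H : H4 X} (hH : H.IsCohomology) {N : ℕ} (hN : N = Nat.card X.Plane) :
    (∀ d, H.rank ≤ d + 2 ∨ 23 ≤ H.rank + d → ¬ Exceptional H (kappa d) (kappa (d - 1)) (d - 3) →
      (H.HasK3 ↔ ∃ (P : X.Plane) (T : Fin 23 → ℤ), H.IsHodge T ∧ Odd (H.ip T (H.h - H.cl P))) ∧
      (H.HasK3 → X.IsRational)) ∧
    ((12 ≤ N ∧ N ∉ ({13, 15, 17, 19, 27} : Finset ℕ)) ∨
      (∃ P : Fin 11 → X.Plane, ∀ i j, i ≠ j → H.ip (H.cl (P i)) (H.cl (P j)) = 1) ∨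
      (∃ P : X.Plane, 19 ≤ deg H P) → H.HasK3 → X.IsRational) ∧
    ((H.rank ≤ 3 ∧ 2 ≤ N) ∨ (H.rank ≤ 4 ∧ 4 ≤ N) ∨ (H.rank ≤ 5 ∧ (N = 4 ∨ 6 ≤ N)) ∨
      (H.rank ≤ 6 ∧ (N = 6 ∨ N = 8 ∨ 10 ≤ N)) ∨
      (H.rank ≤ 7 ∧ 6 ≤ N ∧ N ∉ ({7, 9, 11, 15} : Finset ℕ)) ∨
      (H.rank ≤ 8 ∧ 8 ≤ N ∧ N ∉ ({9, 11, 15, 27} : Finset ℕ)) → H.HasK3 → X.IsRational) := by
  have hA : ∀ d, H.rank ≤ d + 2 ∨ 23 ≤ H.rank + d → ¬ Exceptional H (kappa d) (kappa (d - 1)) (d - 3) →
      (H.HasK3 ↔ ∃ (P : X.Plane) (T : Fin 23 → ℤ), H.IsHodge T ∧ Odd (H.ip T (H.h - H.cl P))) ∧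
      (H.HasK3 → X.IsRational) := by
    intro d hd hex
    have h1 : H.HasK3 → ¬ H.AllEven := by
      intro hK hE
      refine hex (Pool.Agent.K9h76.CF.Cnf.planes_graph hH hE ?_)
      rcases hd with hd | hd
      · exact Pool.Agent.K9h76.CF.Spn.cfg_of_bdW hH hE (Pool.Agent.K9h76.CF.Spn.bdW_of_k3 hH hE hK hd)
      · refine Pool.Agent.K9h76.CF.Cnf.cfg_of_bd hH hE fun ι _ g g1 g2 g3 => ?_
        have h2 := Pool.Agent.K9h76.CF.Cnf.card_le_dd hH g1 g2 g3
        omega
    refine ⟨⟨fun hK => ?_, ?_⟩, fun hK => (hH.of_not_allEven (h1 hK)).1⟩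
    · have h2 := h1 hK
      unfold H4.AllEven at h2
      push Not at h2
      obtain ⟨P, hP, T, hT, hodd⟩ := h2
      rw [Int.not_even_iff_odd] at hodd
      obtain ⟨P', rfl⟩ := (hH.cl_range P).2 hP
      exact ⟨P', T, hT, hodd⟩
    · rintro ⟨P, T, hT, hodd⟩
      exact hH.hasK3 ((hH.cl_range _).1 ⟨P, rfl⟩) hT hodd
  have k0 : kappa 0 = 0 := rfl
  have k1 : kappa 1 = 1 := rfl
  have k2 : kappa 2 = 2 := rfl
  have k3 : kappa 3 = 3 := rfl
  have k4 : kappa 4 = 5 := rfl
  have k5 : kappa 5 = 5 := rfl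
  have k6 : kappa 6 = 6 := rfl
  have k9 : kappa 9 = 9 := rfl
  have k10 : kappa 10 = 10 := rfl
  refine ⟨hA, ?_, ?_⟩
  · intro h hK
    have hd : H.rank ≤ 10 + 2 ∨ 23 ≤ H.rank + 10 := by omega
    refine (hA 10 hd fun hex => ?_).2 hK
    rcases h with h | ⟨P, hP⟩ | ⟨P, hP⟩
    · have hex' := hex.card
      simp only [Finset.mem_insert, Finset.mem_singleton, not_or] at h
      rw [← hN] at hex'
      simp only [k9, k10, Nat.reduceSub] at hex'
      omega
    · have h2 := hex.2.2.1 11 P hP
      rw [k10] at h2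
      omega
    · have h2 := hex.deg_le hH P
      simp only [k9, Nat.reduceSub] at h2
      omega
  · intro h hK
    simp only [Finset.mem_insert, Finset.mem_singleton, not_or] at h
    rcases h with ⟨h0, h⟩ | ⟨h0, h⟩ | ⟨h0, h⟩ | ⟨h0, h⟩ | ⟨h0, h⟩ | ⟨h0, h⟩
    · refine (hA 1 (Or.inl h0) fun hex => ?_).2 hK
      have hex' := hex.card
      rw [← hN] at hex'
      simp only [k0, k1, Nat.sub_self, Nat.reduceSub] at hex'
      omega
    · refine (hA 2 (Or.inl h0) fun hex => ?_).2 hK
      have hex' := hex.card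
      rw [← hN] at hex'
      simp only [k1, k2, Nat.reduceSub] at hex'
      omega
    · refine (hA 3 (Or.inl h0) fun hex => ?_).2 hK
      have hex' := hex.card
      rw [← hN] at hex'
      simp only [k2, k3, Nat.reduceSub] at hex'
      omega
    · refine (hA 4 (Or.inl h0) fun hex => ?_).2 hK
      have hex' := hex.card
      rw [← hN] at hex'
      simp only [k3, k4, Nat.reduceSub] at hex'
      omega
    · refine (hA 5 (Or.inl h0) fun hex => ?_).2 hK
      have hex' := hex.card
      rw [← hN] at hex'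
      simp only [k4, k5, Nat.reduceSub] at hex'
      omega
    · refine (hA 6 (Or.inl h0) fun hex => ?_).2 hK
      have hex' := hex.card
      rw [← hN] at hex'
      simp only [k5, k6, Nat.reduceSub] at hex'
      omega

end Pool.Agent.Results.MP_ffd2c1_ag.PlanesAndAssociatedK3
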