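import Pool.Agent.K9h76.CF.Graph

/-!
# Cubic fourfolds: planes, the discriminant of the lattice of algebraic classes, and rationality

Let `X` be a smooth cubic fourfold, `A` the lattice of the Hodge classes in `H^4(X, ℤ)`, `ρ` its rank, `N`
the number of the planes in `X`, and let `ℓ` be the two-rank of the discriminant group `A* / A`, that is
the dimension of the radical of the intersection form on `A / 2 A`. Let `κ(0) = 0`,
`κ(d) = d + 1` if `4` divides `d > 0`, and `κ(d) = d` otherwise. Let `d ≥ ℓ` and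
`a = κ(d)`, `b = κ(d - 1)`, `g = d - 3`; or let `4 ^ (m + 1)` not divide `det A` and `a = κ(2 m)`,
`b = κ(2 m - 2)`, `g = γ(m)`, where `γ(m) = 0` for `m < 2`, `γ(2) = 1` and `γ(m) = 3` for `m > 2`.

**Theorem.** `X` is rational and has an associated K3 surface, unless the planes in `X` are exceptional:
there are finitely many planes; any two of them meet in a point or in a line; if two of them meet in a line
then exactly one plane meets both in lines; at most `a` planes meet pairwise in points; and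

* either any two planes meet in a point and `N ≤ a`,
* or `N = 1 + 2 k` with `1 ≤ k ≤ b`, one plane meets all the others in lines, and each of the others meets
  exactly two planes in lines,
* or the planes are the points of a generalised quadrangle of order `(2, t)` (two planes are collinear if
  they meet in a line): `N = 3 (2 t + 1)`, each plane meets exactly `2 (t + 1)` planes in lines, and if
  `P` and `Q` meet in a point then exactly `t + 1` planes meet `P` and `Q` in lines; here `t = 1`, `g ≥ 1`, or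
  `t = 2`, `g ≥ 2`, or `t = 4`, `g ≥ 3`; so `N = 9`, `15`, `27`.

Moreover `ℓ ≤ min (ρ - 1) (23 - ρ)`. So `X` is rational and has an associated K3 surface in the following
cases, for instance:

* `4` does not divide `det A`, `N ≥ 1` (for odd `det A` this is due to Hassett);
* `16` does not divide `det A`, `N ≥ 3`;
* `64` does not divide `det A`, `N ≥ 6`, `N ≠ 9`;
* `256` does not divide `det A`, `N ≥ 8` is not one of `9`, `11`, `15`, `27`;
* `1024` does not divide `det A`, `N ≥ 10` is not one of `11`, `13`, `15`, `27`;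
* `ℓ ≤ 1`, `N ≥ 2`;
* `ℓ ≤ 2`, for instance `ρ = 3` or `ρ = 21`, `N ≥ 4`;
* `ℓ ≤ 3`, for instance `ρ = 4` or `ρ = 20`, `N = 4` or `N ≥ 6`;
* `ℓ ≤ 4`, for instance `ρ = 5` or `ρ = 19`, `N = 6`, `N = 8` or `N ≥ 10`;
* `ℓ ≤ 5`, for instance `ρ = 6` or `ρ = 18`, `N ≥ 6` is not one of `7`, `9`, `11`, `15`;
* `ℓ ≤ 6`, for instance `ρ = 7` or `ρ = 17`, `N ≥ 8` is not one of `9`, `11`, `15`, `27`.

So Hassett's conjecture holds for these cubic fourfolds. Always `ℓ ≤ 11`. The starting library contains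
bounds which do not depend on `X` (`N > 11` is not one of `13`, `15`, `17`, `19`, `21`, `27`; `N = 27` and
some plane does not meet exactly ten others in lines; some plane meets more than `20` others in lines; more
than `11` planes which meet pairwise in points) and the bound `N ≥ 2 ^ (23 - ρ)`
(`Pool.Agent.Results.MP_ffd2c1_ag.ManyPlanes`); all of them are contained in the theorem with `d = 11` and
`d = 23 - ρ`.

The known facts which are used are collected in `H4.IsCohomology`: the lattice `H^4(X, ℤ)` is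
unimodular of rank `23` and `h` is characteristic; the Hodge classes are positive definite; Voisin's
theorem that the classes of the planes are the Hodge classes `v` with `v.h = 1`, `v.v = 3`; the
discriminants `2` and `6` do not occur; and Hassett's theorem that `X` is rational if `T.(h - P)` is odd for
some plane `P` and Hodge class `T`.

Idea of the proof. Suppose that `T.(h - P)` is even for all planes `P` and Hodge classes `T`. Then the
classes `h - P` span a subspace `W` of the radical of the form on `A / 2 A`, so that `dim W ≤ ℓ`. On `W`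
there is the quadratic form `w.w / 4 + w.h / 2`; the classes of planes are singular vectors; two planes meet
in a point if their product for the polar form is `1`, and otherwise in a line, and then their sum is the
class of a third plane. At most `κ(ℓ)` singular vectors of a space of dimension `ℓ` are pairwise not
orthogonal (for odd numbers of them one has to consider the value of the form at the sum). The radical of
the polar form of `W` consists of classes whose products with `W` are divisible by four, so that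
`2 ^ (dim W + dim rad W)` divides `det A`. If a plane meets
others in lines one gets in the same way bounds for the number of lines through it, and the planes form
a star with `1 + 2 k` members or a generalised quadrangle with three points on each line. If `P`, `Q` are not
collinear in the quadrangle and `R_0`, `R_1`, `R_2`, `R_3` are collinear with both of them, then so is
`R_0 + R_1 + R_2 + R_3`; this shows that the quadrangle has `9`, `15` or `27` points, and it spans a space of
dimension at least `4`, `5`, `6`.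
-/

set_option autoImplicit false

namespace Pool.Agent.Results.MP_ffd2c1_ag.PlanesAndDiscriminant

open Pool.Agent.Y95.Q

/-- The number `κ(d)`: it is `d + 1` if `d` is positive and divisible by `4`, and `d` otherwise. -/
def kappa (d : ℕ) : ℕ := if d % 4 = 0 ∧ d ≠ 0 then d + 1 else d

/-- The number `γ(m)`: it is `0` for `m < 2`, `1` for `m = 2` and `3` for `m > 2`. -/
def gamma (m : ℕ) : ℕ := if 3 ≤ m then 3 else if m = 2 then 1 else 0

/-- The two-rank of the discriminant group of the lattice `A` of the Hodge classes: the largest number of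
Hodge classes whose products with all Hodge classes are even and which are independent modulo `2 A`. -/
noncomputable def twoRank {X : CubicFourfold} (H : H4 X) : ℕ :=
  sSup {n | ∃ g : Fin n → Fin 23 → ℤ, (∀ j, H.IsHodge (g j)) ∧
    (∀ j T, H.IsHodge T → Even (H.ip T (g j))) ∧
    ∀ ε : Fin n → ℤ, (∃ v, ∑ j, ε j • g j = (2 : ℤ) • v) → ∀ j, Even (ε j)}

/-- The determinant of the lattice of the Hodge classes is not divisible by `n`: this holds for the
intersection matrix of a system of generators (for instance of a basis). -/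
def DetNotDvd {X : CubicFourfold} (H : H4 X) (n : ℕ) : Prop :=
  ∃ (r : ℕ) (b : Fin r → Fin 23 → ℤ),
    Submodule.span ℤ (Set.range b) = Submodule.span ℤ {v | H.IsHodge v} ∧
    ¬ (n : ℤ) ∣ (Matrix.of fun i j => H.ip (b i) (b j)).det

/-- The number of the planes which meet the plane `P` in a line. -/
noncomputable def deg {X : CubicFourfold} (H : H4 X) (P : X.Plane) : ℕ :=
  Nat.card {R : X.Plane // H.ip (H.cl P) (H.cl R) = -1}

/-- The number of the planes which meet the planes `P` and `Q` in lines. -/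
noncomputable def codeg {X : CubicFourfold} (H : H4 X) (P Q : X.Plane) : ℕ :=
  Nat.card {R : X.Plane // H.ip (H.cl P) (H.cl R) = -1 ∧ H.ip (H.cl Q) (H.cl R) = -1}

/-- The planes in `X` are exceptional, with the bounds `a`, `b`, `g`; see above. (Two planes meet in a line
if the product of their classes is `-1`, and in a point if it is `1`.) -/
def Exceptional {X : CubicFourfold} (H : H4 X) (a b g : ℕ) : Prop :=
  Finite X.Plane ∧
  (∀ P Q : X.Plane, P ≠ Q →
    H.ip (H.cl P) (H.cl Q) = 1 ∨ (H.ip (H.cl P) (H.cl Q) = -1 ∧ codeg H P Q = 1)) ∧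
  (∀ (n : ℕ) (P : Fin n → X.Plane), (∀ i j, i ≠ j → H.ip (H.cl (P i)) (H.cl (P j)) = 1) → n ≤ a) ∧
  ((Nat.card X.Plane ≤ a ∧ ∀ P Q : X.Plane, P ≠ Q → H.ip (H.cl P) (H.cl Q) = 1) ∨
    (∃ (k : ℕ) (A : X.Plane), 1 ≤ k ∧ k ≤ b ∧ Nat.card X.Plane = 1 + 2 * k ∧
      ∀ Q : X.Plane, Q ≠ A → H.ip (H.cl A) (H.cl Q) = -1 ∧ deg H Q = 2) ∨
    (∃ t : ℕ, ((t = 1 ∧ 1 ≤ g) ∨ (t = 2 ∧ 2 ≤ g) ∨ (t = 4 ∧ 3 ≤ g)) ∧
      Nat.card X.Plane = 3 * (2 * t + 1) ∧ (∀ P : X.Plane, deg H P = 2 * (t + 1)) ∧
      ∀ P Q : X.Plane, H.ip (H.cl P) (H.cl Q) = 1 → codeg H P Q = t + 1))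

/-- The possible numbers of planes. -/
theorem Exceptional.card {X : CubicFourfold} {H : H4 X} {a b g : ℕ} (h : Exceptional H a b g) :
    Nat.card X.Plane ≤ a ∨ (∃ k, 1 ≤ k ∧ k ≤ b ∧ Nat.card X.Plane = 1 + 2 * k) ∨
      (Nat.card X.Plane = 9 ∧ 1 ≤ g) ∨ (Nat.card X.Plane = 15 ∧ 2 ≤ g) ∨ (Nat.card X.Plane = 27 ∧ 3 ≤ g) := by
  obtain ⟨-, -, -, h | ⟨k, A, k1, k2, k3, -⟩ | ⟨t, t1, t2, -⟩⟩ := h
  · exact Or.inl h.1
  · exact Or.inr (Or.inl ⟨k, k1, k2, k3⟩)
  · rcases t1 with ⟨rfl, t1⟩ | ⟨rfl, t1⟩ | ⟨rfl, t1⟩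
    · exact Or.inr (Or.inr (Or.inl ⟨t2, t1⟩))
    · exact Or.inr (Or.inr (Or.inr (Or.inl ⟨t2, t1⟩)))
    · exact Or.inr (Or.inr (Or.inr (Or.inr ⟨t2, t1⟩)))

/-- If the planes are not exceptional then a product `T.(h - P)` is odd. -/
theorem of_cfg {X : CubicFourfold} {H : H4 X} (hH : H.IsCohomology) {a b g : ℕ}
    (hC : H.AllEven → Pool.Agent.K9h76.CF.Cnf.Cfg H a b g) (hR : ¬ Exceptional H a b g) :
    X.IsRational ∧ H.HasK3 :=
  hH.of_not_allEven fun hE => hR (Pool.Agent.K9h76.CF.Cnf.planes_graph hH hE (hC hE))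

/-- **Planes, discriminant and rationality.** -/
theorem result {X : CubicFourfold} {H : H4 X} (hH : H.IsCohomology) {N : ℕ} (hN : N = Nat.card X.Plane) :
    (∀ d, twoRank H ≤ d → ¬ Exceptional H (kappa d) (kappa (d - 1)) (d - 3) → X.IsRational ∧ H.HasK3) ∧
    (∀ m, DetNotDvd H (4 ^ (m + 1)) →
      ¬ Exceptional H (kappa (2 * m)) (kappa (2 * m - 2)) (gamma m) → X.IsRational ∧ H.HasK3) ∧
    twoRank H ≤ min (H.rank - 1) (23 - H.rank) ∧
    ((twoRank H ≤ 0 ∧ 1 ≤ N) ∨ (twoRank H ≤ 1 ∧ 2 ≤ N) ∨ (twoRank H ≤ 2 ∧ 4 ≤ N) ∨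
      (twoRank H ≤ 3 ∧ (N = 4 ∨ 6 ≤ N)) ∨
      (twoRank H ≤ 4 ∧ (N = 6 ∨ N = 8 ∨ 10 ≤ N)) ∨
      (twoRank H ≤ 5 ∧ 6 ≤ N ∧ N ∉ ({7, 9, 11, 15} : Finset ℕ)) ∨
      (twoRank H ≤ 6 ∧ 8 ≤ N ∧ N ∉ ({9, 11, 15, 27} : Finset ℕ)) → X.IsRational ∧ H.HasK3) ∧
    ((DetNotDvd H 4 ∧ 1 ≤ N) ∨ (DetNotDvd H 16 ∧ 3 ≤ N) ∨ (DetNotDvd H 64 ∧ 6 ≤ N ∧ N ≠ 9) ∨
      (DetNotDvd H 256 ∧ 8 ≤ N ∧ N ∉ ({9, 11, 15, 27} : Finset ℕ)) ∨
      (DetNotDvd H 1024 ∧ 10 ≤ N ∧ N ∉ ({11, 13, 15, 27} : Finset ℕ)) → X.IsRational ∧ H.HasK3) := by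
  have hA : ∀ d, twoRank H ≤ d → ¬ Exceptional H (kappa d) (kappa (d - 1)) (d - 3) →
      X.IsRational ∧ H.HasK3 := by
    intro d hd hR
    exact of_cfg hH (fun hE => Pool.Agent.K9h76.CF.Cnf.cfg_of_bd hH hE
      ((Pool.Agent.K9h76.CF.Cnf.bd_sSup hH).mono hd)) hR
  have hB : ∀ m, DetNotDvd H (4 ^ (m + 1)) →
      ¬ Exceptional H (kappa (2 * m)) (kappa (2 * m - 2)) (gamma m) → X.IsRational ∧ H.HasK3 := by
    rintro m ⟨r, b, hb, hdet⟩ hR
    refine of_cfg hH (fun hE => Pool.Agent.K9h76.CF.Cnf.cfg_of_bd2 hH hE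
      (Pool.Agent.K9h76.CF.Cnf.bd2_of_det hH hb ?_)) hR
    have e : (2 : ℤ) ^ (2 * m + 1 + 1) = ((4 ^ (m + 1) : ℕ) : ℤ) := by
      rw [show 2 * m + 1 + 1 = 2 * (m + 1) by ring, pow_mul]
      norm_num
    rw [e]
    exact hdet
  have k0 : kappa 0 = 0 := rfl
  have k1 : kappa 1 = 1 := rfl
  have k2 : kappa 2 = 2 := rfl
  have k3 : kappa 3 = 3 := rfl
  have k4 : kappa 4 = 5 := rfl
  have k5 : kappa 5 = 5 := rfl
  have k6 : kappa 6 = 6 := rfl
  have k8 : kappa 8 = 9 := rfl
  have g0 : gamma 0 = 0 := rfl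
  have g1 : gamma 1 = 0 := rfl
  have g2 : gamma 2 = 1 := rfl
  have g3 : gamma 3 = 3 := rfl
  have g4 : gamma 4 = 3 := rfl
  refine ⟨hA, hB, Pool.Agent.K9h76.CF.Cnf.fam_le hH (Pool.Agent.K9h76.CF.Cnf.fam_sSup hH), ?_, ?_⟩
  · intro h
    simp only [Finset.mem_insert, Finset.mem_singleton, not_or] at h
    rcases h with ⟨h0, h⟩ | ⟨h0, h⟩ | ⟨h0, h⟩ | ⟨h0, h⟩ | ⟨h0, h⟩ | ⟨h0, h⟩ | ⟨h0, h⟩ <;>
      refine hA _ h0 fun hex => ?_ <;> have hex' := hex.card <;> rw [← hN] at hex' <;>
      simp only [k0, k1, k2, k3, k4, k5, k6, Nat.sub_self, Nat.zero_sub, Nat.reduceSub] at hex' <;>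
      omega
  · intro h
    simp only [Finset.mem_insert, Finset.mem_singleton, not_or] at h
    rcases h with ⟨h0, h⟩ | ⟨h0, h⟩ | ⟨h0, h⟩ | ⟨h0, h⟩ | ⟨h0, h⟩
    · refine hB 0 h0 fun hex => ?_
      have hex' := hex.card
      rw [← hN] at hex'
      simp only [Nat.mul_zero, Nat.zero_sub, k0, g0] at hex'
      omega
    · refine hB 1 h0 fun hex => ?_
      have hex' := hex.card
      rw [← hN] at hex'
      simp only [Nat.mul_one, Nat.sub_self, k0, k2, g1] at hex'
      omega
    · refine hB 2 h0 fun hex => ?_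
      have hex' := hex.card
      rw [← hN] at hex'
      simp only [Nat.reduceMul, Nat.reduceSub, k2, k4, g2] at hex'
      omega
    · refine hB 3 h0 fun hex => ?_
      have hex' := hex.card
      rw [← hN] at hex'
      simp only [Nat.reduceMul, Nat.reduceSub, k4, k6, g3] at hex'
      omega
    · refine hB 4 h0 fun hex => ?_
      have hex' := hex.card
      rw [← hN] at hex'
      simp only [Nat.reduceMul, Nat.reduceSub, k6, k8, g4] at hex'
      omega

end Pool.Agent.Results.MP_ffd2c1_ag.PlanesAndDiscriminant
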