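import Pool.Agent.K9h76.CF.Gen

/-!
# Cubic fourfolds with a plane whose algebraic classes are generated by classes of small discriminant

Let `X` be a smooth cubic fourfold which contains a plane `P`, and let `A(X)` be the group of the Hodge
classes in `H^4(X, ℤ)`. The discriminant `disc v` of a class `v` is the determinant of the intersection
matrix of `h` and `v`: it is `8` for a plane, `12` for a cubic scroll, `14` for a quartic scroll or a
quintic del Pezzo surface, `20` for a Veronese surface. Let `det3 P v` be the determinant of the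
intersection matrix of `h`, `P`, `v`; it is at most `(8 / 3) disc v`. The following is proved.

1. If `v` is a Hodge class, `4` does not divide `disc v` and `det3 P v < 128`, then `X` is rational and
   has an associated K3 surface. (For `det3 P v = 128` the argument gives only a class of discriminant at
   most `50`, and discriminant `50` is not covered by the theorems which are used.)
2. Let `S` be a set of Hodge classes which generates a subgroup of odd index in `A(X)`. Then `X` has an
   associated K3 surface if and only if `disc s` or `disc (s + t)` is not divisible by `4` for some `s`,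
   `t` in `S`.
3. Suppose that the Hodge classes `s` with `det3 P s ≤ 64`, for instance those with `disc s ≤ 24`,
   generate a subgroup of odd index in `A(X)`. If `X` has an associated K3 surface, then `X` is rational,
   as predicted by the conjecture of Hassett. In particular this is so if `A(X)` is generated by `h` and
   by the classes of planes, cubic scrolls, quartic scrolls, quintic del Pezzo surfaces and Veronese
   surfaces, up to odd index; the rank of `A(X)` is arbitrary.
4. The same if `A(X)` is generated by `h`, `P` and one more class `v` with `det3 P v < 128`, up to odd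
   index: the conjecture predicts that exactly the `X` with an associated K3 surface are rational, and
   in this codimension two case the prediction holds for all of them of discriminant less than `128`.

Known facts which are used (the hypotheses of the theorem): the properties of `H^4(X, ℤ)` collected in
`H4.IsCohomology`, among them the theorem of Hassett (`X` is rational if `T.(h - P)` is odd for a
Hodge class `T`), and the rationality of the cubic fourfolds in `C_14` (Bolognesi, Russo, Staglianò),
`C_26`, `C_38` and `C_42` (Russo, Staglianò), see `KnownRational`. The starting library contains the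
case `disc v ≤ 42` of part 1 (`Pool.Agent.N801.CF.rational_of_small`) and the criterion
`HasK3 ↔ ∃ v, ¬ 4 ∣ disc v` (`hasK3_iff_of_plane`).

Idea of the proof. If `T.(h - P)` is even for all Hodge classes, then the polar form of the discriminant
has even values at `(P, v)`, and a class `v` can be moved by multiples of `P`, without a change of
`disc v` modulo `4` and of `det3 P v`, to a class of small discriminant: `det3 P v < 128` gives
`disc v < 50`. For the third part let `disc s` be divisible by `4` for all small generators `s`. If `X`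
has an associated K3 surface, then the polar form of one half of the discriminant is odd at `(s, t)`
for two of them. Hence `disc (s + t)` and `disc (s - t)` are not divisible by `4`, and by the
parallelogram law for `det3` one of these classes has `det3 < 128`, except in the case of
equality, which is excluded by congruences modulo `16`.
-/

set_option autoImplicit false

namespace Pool.Agent.Results.MP_ffd2c1_ag.SmallAlgebraicClasses

open Pool.Agent.Y95.Q

/-- The rationality of the cubic fourfolds in the Hassett divisors `C_14`, `C_26`, `C_38` and `C_42`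
(Bolognesi, Russo and Staglianò; Russo and Staglianò): if `h` and the Hodge class `v` span a saturated
group of discriminant `14`, `26`, `38` or `42`, then `X` is rational. -/
def KnownRational {X : CubicFourfold} (H : H4 X) : Prop :=
  ∀ v, H.IsHodge v → H.Saturated v →
    (H.disc v = 14 ∨ H.disc v = 26 ∨ H.disc v = 38 ∨ H.disc v = 42) → X.IsRational

/-- The determinant of the intersection matrix of the classes `h`, `P` and `v`. -/
def det3 {X : CubicFourfold} (H : H4 X) (P : X.Plane) (v : Fin 23 → ℤ) : ℤ :=
  (Matrix.of fun i j : Fin 3 => H.ip (![H.h, H.cl P, v] i) (![H.h, H.cl P, v] j)).det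

/-- The set `S` generates a subgroup of odd index of the group of the Hodge classes: every Hodge class
has an odd multiple in the subgroup generated by `S`. -/
def OddIndex {X : CubicFourfold} (H : H4 X) (S : Set (Fin 23 → ℤ)) : Prop :=
  ∀ v, H.IsHodge v → ∃ m : ℤ, Odd m ∧ m • v ∈ Submodule.span ℤ S

theorem det3_eq {X : CubicFourfold} {H : H4 X} (hH : H.IsCohomology) (P : X.Plane)
    (v : Fin 23 → ℤ) : 3 * det3 H P v = Pool.Agent.K9h76.CF.tdet H (H.cl P) v := by
  obtain ⟨-, p2, p3⟩ := (hH.cl_range (H.cl P)).1 ⟨P, rfl⟩
  have e1 : H.ip H.h (H.cl P) = 1 := (hH.comm _ _).trans p2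
  unfold det3 Pool.Agent.K9h76.CF.tdet Pool.Agent.K9h76.CF.bb H4.disc
  rw [Matrix.det_fin_three]
  simp only [Matrix.of_apply, Matrix.cons_val_zero, Matrix.cons_val_one, Matrix.cons_val_two,
    Matrix.head_cons, Matrix.tail_cons]
  rw [hH.comm v H.h, hH.comm v (H.cl P), e1, p2, p3, hH.h_self]
  ring

/-- **Cubic fourfolds with a plane and algebraic classes of small discriminant.** -/
theorem result {X : CubicFourfold} {H : H4 X} (hH : H.IsCohomology) (hR : KnownRational H)
    (P : X.Plane) :
    (∀ v, H.IsHodge v → ¬ 4 ∣ H.disc v → det3 H P v < 128 → X.IsRational ∧ H.HasK3) ∧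
    (∀ S : Set (Fin 23 → ℤ), (∀ s ∈ S, H.IsHodge s) → OddIndex H S →
      (H.HasK3 ↔ (∃ s ∈ S, ¬ 4 ∣ H.disc s) ∨ ∃ s ∈ S, ∃ t ∈ S, ¬ 4 ∣ H.disc (s + t))) ∧
    (OddIndex H {s | H.IsHodge s ∧ det3 H P s ≤ 64} → H.HasK3 → X.IsRational) ∧
    (OddIndex H {s | H.IsHodge s ∧ H.disc s ≤ 24} → H.HasK3 → X.IsRational) ∧
    (∀ v, H.IsHodge v → OddIndex H {H.h, H.cl P, v} → det3 H P v < 128 →
      H.HasK3 → X.IsRational) := by
  obtain ⟨p1, p2, p3⟩ := (hH.cl_range (H.cl P)).1 ⟨P, rfl⟩
  have hle : ∀ v n, H.IsHodge v → H.disc v ≤ n → 3 * det3 H P v ≤ 8 * n := by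
    intro v n _ h
    rw [det3_eq hH]
    unfold Pool.Agent.K9h76.CF.tdet
    nlinarith [sq_nonneg (Pool.Agent.K9h76.CF.bb H (H.cl P) v)]
  have h1 : ∀ v, H.IsHodge v → ¬ 4 ∣ H.disc v → det3 H P v < 128 → X.IsRational ∧ H.HasK3 := by
    intro v hv h4 hd
    refine ⟨Pool.Agent.K9h76.CF.rational_of_det hH hR P hv h4 ?_,
      (Pool.Agent.N801.CF.hasK3_iff_of_plane hH ⟨P⟩).2 ⟨v, hv, h4⟩⟩
    rw [← det3_eq hH]
    omega
  have h3 : OddIndex H {s | H.IsHodge s ∧ det3 H P s ≤ 64} → H.HasK3 → X.IsRational := by
    intro hgen hK
    refine Pool.Agent.K9h76.CF.rational_of_gen hH hR P (fun v hv => ?_) hK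
    obtain ⟨m, hm, hmv⟩ := hgen v hv
    refine ⟨m, hm, Submodule.span_mono ?_ hmv⟩
    rintro s ⟨hs, hsd⟩
    refine ⟨hs, ?_⟩
    rw [← det3_eq hH]
    omega
  refine ⟨h1, fun S hS hgen => Pool.Agent.K9h76.CF.k3_iff hH ⟨P⟩ hS hgen, h3, ?_, ?_⟩
  · intro hgen hK
    refine h3 (fun v hv => ?_) hK
    obtain ⟨m, hm, hmv⟩ := hgen v hv
    refine ⟨m, hm, Submodule.span_mono ?_ hmv⟩
    rintro s ⟨hs, hsd⟩
    refine ⟨hs, ?_⟩
    have := hle s 24 hs hsd
    omega
  · intro v hv hgen hd hK
    by_contra hnot
    have hdP : H.disc (H.cl P) = 8 := by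
      rw [H4.disc, hH.comm H.h, p2, p3]
      norm_num
    have hdh : H.disc H.h = 0 := by
      rw [H4.disc, hH.h_self]
      norm_num
    have hbig : ∀ w, H.IsHodge w → det3 H P w < 128 → 4 ∣ H.disc w := by
      intro w hw hdw
      by_contra h4
      exact hnot (h1 w hw h4 hdw).1
    have hbh : ∀ w, Pool.Agent.K9h76.CF.bb H H.h w = 0 := by
      intro w
      unfold Pool.Agent.K9h76.CF.bb
      rw [hH.h_self]
      ring
    have hbP : ∀ w, H.IsHodge w → 2 ∣ Pool.Agent.K9h76.CF.bb H (H.cl P) w := by
      intro w hw
      have hodd : ¬ Odd (H.ip w (H.h - H.cl P)) := fun h => hnot (hH.hassett P w hw h)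
      rw [Int.not_odd_iff_even, H4.ip_sub_right] at hodd
      obtain ⟨s, hs⟩ := hodd
      have e1 : H.ip H.h w = H.ip w H.h := hH.comm _ _
      have e2 : H.ip (H.cl P) w = H.ip w (H.cl P) := hH.comm _ _
      have e3 : H.ip H.h (H.cl P) = 1 := (hH.comm _ _).trans p2
      refine ⟨H.ip w (H.cl P) - s, ?_⟩
      unfold Pool.Agent.K9h76.CF.bb
      rw [e1, e2, e3]
      linear_combination (-1 : ℤ) * hs
    have hv4 := hbig v hv hd
    -- the discriminants of all the classes are divisible by four
    obtain ⟨w, hw, hw4⟩ := (Pool.Agent.N801.CF.hasK3_iff_of_plane hH ⟨P⟩).1 hK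
    obtain ⟨m, hm, hmw⟩ := hgen w hw
    apply hw4
    refine Pool.Agent.K9h76.CF.four_dvd_of_odd hm ?_
    rw [← Pool.Agent.N801.CF.disc_smul]
    refine Pool.Agent.K9h76.CF.span_even hH ?_ ?_ hmw
    · rintro s (rfl | rfl | rfl)
      · rw [hdh]; norm_num
      · rw [hdP]; norm_num
      · exact hv4
    · rintro s hs t ht
      have hcase : ∀ s ∈ ({H.h, H.cl P, v} : Set (Fin 23 → ℤ)), H.IsHodge s := by
        rintro s (rfl | rfl | rfl)
        · exact hH.h_hodge
        · exact p1
        · exact hv
      rcases hs with rfl | rfl | rfl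
      · rw [hbh]; exact dvd_zero _
      · exact hbP t (hcase t ht)
      · rcases ht with rfl | rfl | rfl
        · rw [Pool.Agent.K9h76.CF.bb_comm hH, hbh]; exact dvd_zero _
        · rw [Pool.Agent.K9h76.CF.bb_comm hH]; exact hbP _ hv
        · have e : Pool.Agent.K9h76.CF.bb H t t = H.disc t := by
            unfold Pool.Agent.K9h76.CF.bb H4.disc
            ring
          rw [e]
          exact (by norm_num : (2 : ℤ) ∣ 4).trans hv4

end Pool.Agent.Results.MP_ffd2c1_ag.SmallAlgebraicClasses
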